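import Pool.Agent.Helper26.Ip.Tools
import Pool.Agent.Helper88.Ip.Inv

/-!
# Independent parts of stationary waves: partial waves (not a result)
-/

set_option autoImplicit false
set_option linter.unusedSectionVars false
open MeasureTheory Filter Topology ProbabilityTheory
open scoped ContDiff ENNReal InnerProductSpace

namespace Pool.Agent.Helper72.Ip

open Pool.Agent.N661.BR (MW J0 IsStationary shift meas_eval meas_shift IsGaussianLaw lin meas_lin)
open Pool.Agent.Helper37.BC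
open Pool.Agent.Helper26.Ip
open Pool.Agent.Helper88.Ip (inner_V eq_zero_of_inner)
open Complex (I)

noncomputable section

/-! ## Fourier series -/

theorem fourier_unique {u : ℝ → ℝ} (hu : Continuous u) (hp : Function.Periodic u (2 * Real.pi))
    (hc : ∀ n : ℕ, ∫ φ in (0:ℝ)..(2 * Real.pi), u φ * Real.cos (n * φ) = 0)
    (hs : ∀ n : ℕ, ∫ φ in (0:ℝ)..(2 * Real.pi), u φ * Real.sin (n * φ) = 0) (x : ℝ) : u x = 0 := by
  have : Fact (0 < 2 * Real.pi) := ⟨by positivity⟩
  have hpC : Function.Periodic (fun x => (u x : ℂ)) (2 * Real.pi) := fun x => by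
    show ((u (x + 2 * Real.pi) : ℝ) : ℂ) = _
    rw [hp x]
  have hcont : Continuous (hpC.lift : AddCircle (2 * Real.pi) → ℂ) :=
    continuous_coinduced_dom.2 (Complex.continuous_ofReal.comp hu)
  obtain ⟨F, hF⟩ : ∃ F : C(AddCircle (2 * Real.pi), ℂ), ∀ x : ℝ,
      F (x : AddCircle (2 * Real.pi)) = (u x : ℂ) := ⟨⟨hpC.lift, hcont⟩, fun x => rfl⟩
  have hcoef : ∀ n : ℤ, fourierCoeff F n = 0 := by
    intro n
    rw [fourierCoeff_eq_intervalIntegral F n 0, zero_add]
    have h1 : ∀ x : ℝ, @fourier (2 * Real.pi) (-n) x • F x =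
        ((u x * Real.cos (n * x) : ℝ) : ℂ) - I * ((u x * Real.sin (n * x) : ℝ) : ℂ) := by
      intro x
      rw [fourier_coe_apply, hF, smul_eq_mul]
      have h2 : 2 * (Real.pi : ℂ) * Complex.I * ((-n : ℤ) : ℂ) * (x : ℂ) / ((2 * Real.pi : ℝ) : ℂ) =
          ((-(n * x) : ℝ) : ℂ) * Complex.I := by
        have h3 : (Real.pi : ℂ) ≠ 0 := by exact_mod_cast Real.pi_ne_zero
        push_cast
        field_simp
      rw [h2, Complex.exp_mul_I, ← Complex.ofReal_cos, ← Complex.ofReal_sin, Real.cos_neg,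
        Real.sin_neg]
      push_cast
      ring
    simp_rw [h1]
    have i1 : IntervalIntegrable (fun x : ℝ => ((u x * Real.cos (n * x) : ℝ) : ℂ)) volume 0
        (2 * Real.pi) :=
      (Complex.continuous_ofReal.comp (hu.mul (by fun_prop))).intervalIntegrable _ _
    have i2 : IntervalIntegrable (fun x : ℝ => I * ((u x * Real.sin (n * x) : ℝ) : ℂ)) volume 0
        (2 * Real.pi) :=
      (continuous_const.mul (Complex.continuous_ofReal.comp
        (hu.mul (by fun_prop)))).intervalIntegrable _ _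
    rw [intervalIntegral.integral_sub i1 i2, intervalIntegral.integral_const_mul,
      intervalIntegral.integral_ofReal, intervalIntegral.integral_ofReal]
    have h4 : ∫ x in (0:ℝ)..(2 * Real.pi), u x * Real.cos (n * x) = 0 := by
      obtain ⟨k, rfl | rfl⟩ := n.eq_nat_or_neg
      · simp only [Int.cast_natCast]
        exact hc k
      · simp only [Int.cast_neg, Int.cast_natCast, neg_mul, Real.cos_neg]
        exact hc k
    have h5 : ∫ x in (0:ℝ)..(2 * Real.pi), u x * Real.sin (n * x) = 0 := by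
      obtain ⟨k, rfl | rfl⟩ := n.eq_nat_or_neg
      · simp only [Int.cast_natCast]
        exact hs k
      · simp only [Int.cast_neg, Int.cast_natCast, neg_mul, Real.sin_neg, mul_neg,
          intervalIntegral.integral_neg]
        rw [hs k, neg_zero]
    rw [h4, h5]
    simp
  have hsum : Summable (fourierCoeff F) := by
    have : fourierCoeff F = fun _ => 0 := funext hcoef
    rw [this]
    exact summable_zero
  have h6 := hasSum_fourier_series_of_summable hsum
  simp_rw [hcoef, zero_smul] at h6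
  have h7 : F = 0 := h6.unique hasSum_zero
  have h8 := hF x
  rw [h7] at h8
  exact (Complex.ofReal_eq_zero.1 h8.symm)

theorem int_cos {k : ℤ} (hk : k ≠ 0) : ∫ φ in (0:ℝ)..(2 * Real.pi), Real.cos (k * φ) = 0 := by
  have hk' : (k : ℝ) ≠ 0 := by exact_mod_cast hk
  rw [intervalIntegral.integral_comp_mul_left (fun x => Real.cos x) hk', integral_cos]
  have h1 : Real.sin ((k : ℝ) * (2 * Real.pi)) = 0 := by
    have := Real.sin_int_mul_pi (2 * k)
    push_cast at this
    rw [← this]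
    congr 1
    ring
  rw [h1]
  simp

theorem int_sin (k : ℤ) : ∫ φ in (0:ℝ)..(2 * Real.pi), Real.sin (k * φ) = 0 := by
  by_cases hk : k = 0
  · subst hk
    simp
  have hk' : (k : ℝ) ≠ 0 := by exact_mod_cast hk
  rw [intervalIntegral.integral_comp_mul_left (fun x => Real.sin x) hk', integral_sin]
  have h1 : Real.cos ((k : ℝ) * (2 * Real.pi)) = 1 := by
    have := Real.cos_int_mul_two_pi k
    exact this
  rw [h1]
  simp

theorem int_cos_cos {n m : ℕ} (h : n ≠ m) :
    ∫ φ in (0:ℝ)..(2 * Real.pi), Real.cos (m * φ) * Real.cos (n * φ) = 0 := by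
  have h1 : ∀ φ : ℝ, Real.cos (m * φ) * Real.cos (n * φ) =
      1 / 2 * Real.cos (((m + n : ℤ) : ℝ) * φ) + 1 / 2 * Real.cos (((m - n : ℤ) : ℝ) * φ) := by
    intro φ
    have h2 := Real.cos_add (m * φ) (n * φ)
    have h3 := Real.cos_sub (m * φ) (n * φ)
    push_cast
    rw [add_mul, sub_mul, h2, h3]
    ring
  simp_rw [h1]
  rw [intervalIntegral.integral_add ((by fun_prop : Continuous fun φ : ℝ =>
      1 / 2 * Real.cos (((m + n : ℤ) : ℝ) * φ)).intervalIntegrable _ _)
    ((by fun_prop : Continuous fun φ : ℝ =>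
      1 / 2 * Real.cos (((m - n : ℤ) : ℝ) * φ)).intervalIntegrable _ _),
    intervalIntegral.integral_const_mul, intervalIntegral.integral_const_mul, int_cos, int_cos]
  · ring
  · omega
  · omega

theorem int_sin_cos (n m : ℕ) :
    ∫ φ in (0:ℝ)..(2 * Real.pi), Real.sin (m * φ) * Real.cos (n * φ) = 0 := by
  have h1 : ∀ φ : ℝ, Real.sin (m * φ) * Real.cos (n * φ) =
      1 / 2 * Real.sin (((m + n : ℤ) : ℝ) * φ) + 1 / 2 * Real.sin (((m - n : ℤ) : ℝ) * φ) := by
    intro φ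
    have h2 := Real.sin_add (m * φ) (n * φ)
    have h3 := Real.sin_sub (m * φ) (n * φ)
    push_cast
    rw [add_mul, sub_mul, h2, h3]
    ring
  simp_rw [h1]
  rw [intervalIntegral.integral_add ((by fun_prop : Continuous fun φ : ℝ =>
      1 / 2 * Real.sin (((m + n : ℤ) : ℝ) * φ)).intervalIntegrable _ _)
    ((by fun_prop : Continuous fun φ : ℝ =>
      1 / 2 * Real.sin (((m - n : ℤ) : ℝ) * φ)).intervalIntegrable _ _),
    intervalIntegral.integral_const_mul, intervalIntegral.integral_const_mul, int_sin, int_sin]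
  ring

theorem rot_per (y : ℂ) : Function.Periodic (fun φ : ℝ => Complex.exp (φ * I) * y)
    (2 * Real.pi) := by
  intro φ
  show Complex.exp (((φ + 2 * Real.pi : ℝ) : ℂ) * I) * y = _
  have h1 : ((φ + 2 * Real.pi : ℝ) : ℂ) * I = φ * I + 2 * Real.pi * I := by
    push_cast
    ring
  rw [h1, Complex.exp_add, Complex.exp_two_pi_mul_I, mul_one]

theorem rot_cont (y : ℂ) : Continuous (fun φ : ℝ => Complex.exp (φ * I) * y) := by fun_prop

theorem cos_per (n : ℕ) : Function.Periodic (fun φ : ℝ => Real.cos (n * φ)) (2 * Real.pi) := by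
  intro φ
  show Real.cos (n * (φ + 2 * Real.pi)) = _
  rw [mul_add]
  exact Real.cos_add_nat_mul_two_pi _ _

theorem sin_per (n : ℕ) : Function.Periodic (fun φ : ℝ => Real.sin (n * φ)) (2 * Real.pi) := by
  intro φ
  show Real.sin (n * (φ + 2 * Real.pi)) = _
  rw [mul_add]
  exact Real.sin_add_nat_mul_two_pi _ _

/-- the shift of a Fourier coefficient -/
theorem coef_shift {u : ℝ → ℝ} (hu : Continuous u) (hp : Function.Periodic u (2 * Real.pi))
    (n : ℕ) (α : ℝ) : ∫ φ in (0:ℝ)..(2 * Real.pi), u (φ + α) * Real.cos (n * φ) =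
      Real.cos (n * α) * (∫ φ in (0:ℝ)..(2 * Real.pi), u φ * Real.cos (n * φ)) +
        Real.sin (n * α) * ∫ φ in (0:ℝ)..(2 * Real.pi), u φ * Real.sin (n * φ) := by
  have h1 : ∀ φ : ℝ, u (φ + α) * Real.cos (n * φ) =
      (fun x => Real.cos (n * α) * (u x * Real.cos (n * x)) +
        Real.sin (n * α) * (u x * Real.sin (n * x))) (φ + α) := by
    intro φ
    have h2 : Real.cos (n * φ) = Real.cos (n * (φ + α) - n * α) := by
      congr 1
      ring
    rw [h2, Real.cos_sub]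
    ring
  simp_rw [h1]
  rw [intervalIntegral.integral_comp_add_right (fun x => Real.cos (n * α) * (u x * Real.cos (n * x)) +
        Real.sin (n * α) * (u x * Real.sin (n * x))) α]
  have hper : Function.Periodic (fun x => Real.cos (n * α) * (u x * Real.cos (n * x)) +
        Real.sin (n * α) * (u x * Real.sin (n * x))) (2 * Real.pi) := by
    intro x
    have h3 := cos_per n x
    have h4 := sin_per n x
    simp only at h3 h4 ⊢
    rw [hp x, h3, h4]
  have h5 := hper.intervalIntegral_add_eq α 0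
  rw [zero_add, add_comm (2 * Real.pi) α, h5, zero_add]
  rw [intervalIntegral.integral_add ((by fun_prop : Continuous fun x : ℝ =>
      Real.cos (n * α) * (u x * Real.cos (n * x))).intervalIntegrable _ _)
    ((by fun_prop : Continuous fun x : ℝ =>
      Real.sin (n * α) * (u x * Real.sin (n * x))).intervalIntegrable _ _),
    intervalIntegral.integral_const_mul, intervalIntegral.integral_const_mul]

/-! ## Partial waves -/

/-- W1 -/
theorem pw_meas (n : ℕ) (y : ℂ) : Measurable (fun f : MW => partialWave n f y) := by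
  have h0 : (0:ℝ) ≤ 2 * Real.pi := by positivity
  have hm : Measurable (fun p : MW × ℝ => p.1 (Complex.exp (p.2 * I) * y) *
      Real.cos (n * p.2)) := by
    refine Measurable.mul ?_ (by fun_prop)
    exact meas_ev.comp ((by fun_prop : Measurable fun p : MW × ℝ =>
      Complex.exp (p.2 * I) * y).prodMk measurable_fst)
  have h1 : StronglyMeasurable (fun f : MW => ∫ φ in Set.Ioc (0:ℝ) (2 * Real.pi),
      f (Complex.exp (φ * I) * y) * Real.cos (n * φ)) :=
    hm.stronglyMeasurable.integral_prod_right (ν := volume.restrict (Set.Ioc (0:ℝ) (2 * Real.pi)))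
  have h2 : (fun f : MW => partialWave n f y) = fun f : MW =>
      ∫ φ in Set.Ioc (0:ℝ) (2 * Real.pi), f (Complex.exp (φ * I) * y) * Real.cos (n * φ) := by
    funext f
    unfold partialWave
    rw [intervalIntegral.integral_of_le h0]
  rw [h2]
  exact h1.measurable

theorem norm_rot (φ : ℝ) (y : ℂ) : ‖Complex.exp (φ * I) * y‖ = ‖y‖ := by
  rw [norm_mul, Complex.norm_exp_ofReal_mul_I, one_mul]

variable {μ : Measure MW} [IsProbabilityMeasure μ]

/-- W2 -/
theorem pw_two (hs : IsStationary μ) (h2 : Integrable (fun f : MW => f 0 ^ 2) μ) (n : ℕ) (y : ℂ) :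
    MemLp (fun f : MW => partialWave n f y) 2 μ := by
  obtain ⟨C, hC, hb⟩ := GB_bound (ρ := ‖y‖) (norm_nonneg _)
  refine MemLp.mono (((GB_two hs h2 (norm_nonneg y)).const_mul C).mul_const (2 * Real.pi))
    (pw_meas n y).aestronglyMeasurable (Eventually.of_forall fun f => ?_)
  have h1 : ‖partialWave n f y‖ ≤ C * GB ‖y‖ f * |2 * Real.pi - 0| := by
    refine intervalIntegral.norm_integral_le_of_norm_le_const fun φ _ => ?_
    rw [norm_mul, Real.norm_eq_abs, Real.norm_eq_abs]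
    calc |f (Complex.exp (φ * I) * y)| * |Real.cos (n * φ)| ≤ (C * GB ‖y‖ f) * 1 :=
          mul_le_mul (hb f _ (norm_rot φ y).le) (Real.abs_cos_le_one _) (abs_nonneg _)
            (mul_nonneg hC (GB_nonneg _ _))
      _ = _ := mul_one _
  refine h1.trans (le_of_eq ?_)
  rw [sub_zero, abs_of_nonneg (by positivity : (0:ℝ) ≤ 2 * Real.pi), Real.norm_eq_abs,
    abs_of_nonneg (mul_nonneg (mul_nonneg hC (GB_nonneg _ _)) (by positivity))]

/-- the partial wave at `y` as an element of `L²` -/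
def PW (hs : IsStationary μ) (h2 : Integrable (fun f : MW => f 0 ^ 2) μ) (n : ℕ) (y : ℂ) :
    Lp ℝ 2 μ := (pw_two hs h2 n y).toLp _

theorem PW_coe (hs : IsStationary μ) (h2 : Integrable (fun f : MW => f 0 ^ 2) μ) (n : ℕ) (y : ℂ) :
    PW hs h2 n y =ᵐ[μ] fun f : MW => partialWave n f y := MemLp.coeFn_toLp _

theorem inner_Vg (hs : IsStationary μ) (h2 : Integrable (fun f : MW => f 0 ^ 2) μ) (w : ℂ)
    (g : Lp ℝ 2 μ) : ⟪V hs h2 w, g⟫_ℝ = UU μ g w := by
  rw [L2.inner_def]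
  unfold UU
  refine integral_congr_ae ?_
  filter_upwards [V_coe hs h2 w] with f hf
  rw [hf]
  simp [mul_comm]

theorem cont_Vg (hs : IsStationary μ) (h2 : Integrable (fun f : MW => f 0 ^ 2) μ)
    (g : Lp ℝ 2 μ) : Continuous fun w => ⟪V hs h2 w, g⟫_ℝ := by
  simp_rw [inner_Vg]
  exact UU_cont hs h2 (Lp.memLp g)

/-- W3 (Fubini) -/
theorem pw_inner (hs : IsStationary μ) (h2 : Integrable (fun f : MW => f 0 ^ 2) μ) (n : ℕ) (y : ℂ)
    (g : Lp ℝ 2 μ) : ⟪PW hs h2 n y, g⟫_ℝ =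
      ∫ φ in (0:ℝ)..(2 * Real.pi), ⟪V hs h2 (Complex.exp (φ * I) * y), g⟫_ℝ *
        Real.cos (n * φ) := by
  have h0 : (0:ℝ) ≤ 2 * Real.pi := by positivity
  obtain ⟨C, hC, hb⟩ := GB_bound (ρ := ‖y‖) (norm_nonneg _)
  have hg := Lp.memLp g
  have hG : Integrable (fun f : MW => C * GB ‖y‖ f * |g f|) μ :=
    MemLp.integrable_mul (f := fun f => C * GB ‖y‖ f) (g := fun f => |g f|)
      ((GB_two hs h2 (norm_nonneg y)).const_mul C) hg.abs
  have hm : AEStronglyMeasurable (fun p : ℝ × MW => p.2 (Complex.exp (p.1 * I) * y) * g p.2 *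
      Real.cos (n * p.1)) ((volume.restrict (Set.Ioc (0:ℝ) (2 * Real.pi))).prod μ) := by
    refine AEStronglyMeasurable.mul (AEStronglyMeasurable.mul ?_ (hg.1.comp_snd))
      (by fun_prop : Measurable fun p : ℝ × MW => Real.cos (n * p.1)).aestronglyMeasurable
    exact (meas_ev.comp ((by fun_prop : Measurable fun p : ℝ × MW =>
      Complex.exp (p.1 * I) * y).prodMk measurable_snd)).aestronglyMeasurable
  have hfin : IsFiniteMeasure (volume.restrict (Set.Ioc (0:ℝ) (2 * Real.pi))) := inferInstance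
  have hj : Integrable (fun p : ℝ × MW => p.2 (Complex.exp (p.1 * I) * y) * g p.2 *
      Real.cos (n * p.1)) ((volume.restrict (Set.Ioc (0:ℝ) (2 * Real.pi))).prod μ) := by
    have h1 : Integrable (fun _ : ℝ => (1:ℝ)) (volume.restrict (Set.Ioc (0:ℝ) (2 * Real.pi))) :=
      integrable_const 1
    refine (h1.mul_prod hG).mono' hm (Eventually.of_forall fun p => ?_)
    rw [norm_mul, norm_mul, Real.norm_eq_abs, Real.norm_eq_abs, Real.norm_eq_abs, one_mul]
    have h3 : |p.2 (Complex.exp (p.1 * I) * y)| ≤ C * GB ‖y‖ p.2 := hb _ _ (norm_rot _ _).le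
    calc |p.2 (Complex.exp (p.1 * I) * y)| * |g p.2| * |Real.cos (n * p.1)| ≤
          (C * GB ‖y‖ p.2 * |g p.2|) * 1 :=
          mul_le_mul (mul_le_mul_of_nonneg_right h3 (abs_nonneg _)) (Real.abs_cos_le_one _)
            (abs_nonneg _) (mul_nonneg (mul_nonneg hC (GB_nonneg _ _)) (abs_nonneg _))
      _ = _ := mul_one _
  have h3 : ⟪PW hs h2 n y, g⟫_ℝ = ∫ f : MW, partialWave n f y * g f ∂μ := by
    rw [L2.inner_def]
    refine integral_congr_ae ?_
    filter_upwards [PW_coe hs h2 n y] with f hf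
    rw [hf]
    simp [mul_comm]
  rw [h3, intervalIntegral.integral_of_le h0]
  have h4 : ∀ φ : ℝ, ⟪V hs h2 (Complex.exp (φ * I) * y), g⟫_ℝ * Real.cos (n * φ) =
      ∫ f : MW, f (Complex.exp (φ * I) * y) * g f * Real.cos (n * φ) ∂μ := by
    intro φ
    rw [inner_Vg, UU, integral_mul_const]
  simp_rw [h4]
  rw [integral_integral_swap hj]
  refine integral_congr_ae (Eventually.of_forall fun f => ?_)
  show partialWave n f y * g f = ∫ φ in Set.Ioc (0:ℝ) (2 * Real.pi),
    f (Complex.exp (φ * I) * y) * g f * Real.cos (n * φ)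
  unfold partialWave
  rw [intervalIntegral.integral_of_le h0, ← integral_mul_const]
  congr 1
  funext φ
  ring

instance complete_values : CompleteSpace (values μ) := values_closed.completeSpace_coe

/-- W4 -/
theorem pw_mem (hs : IsStationary μ) (h2 : Integrable (fun f : MW => f 0 ^ 2) μ) (n : ℕ) (y : ℂ) :
    PW hs h2 n y ∈ values μ := by
  rw [← Submodule.orthogonal_orthogonal (values μ), Submodule.mem_orthogonal]
  intro g hg
  rw [Submodule.mem_orthogonal] at hg
  rw [real_inner_comm, pw_inner]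
  have h1 : ∀ φ : ℝ, ⟪V hs h2 (Complex.exp (φ * I) * y), g⟫_ℝ = 0 := fun φ => hg _ (V_mem hs h2 _)
  simp_rw [h1, zero_mul]
  simp

theorem Vrot_per (hs : IsStationary μ) (h2 : Integrable (fun f : MW => f 0 ^ 2) μ)
    (g : Lp ℝ 2 μ) (y : ℂ) :
    Function.Periodic (fun φ : ℝ => ⟪V hs h2 (Complex.exp (φ * I) * y), g⟫_ℝ) (2 * Real.pi) := by
  intro φ
  have h1 := rot_per y φ
  simp only at h1 ⊢
  rw [h1]

theorem Vrot_cont (hs : IsStationary μ) (h2 : Integrable (fun f : MW => f 0 ^ 2) μ)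
    (g : Lp ℝ 2 μ) (y : ℂ) :
    Continuous (fun φ : ℝ => ⟪V hs h2 (Complex.exp (φ * I) * y), g⟫_ℝ) :=
  (cont_Vg hs h2 g).comp (rot_cont y)

/-- the rotation of the point -/
theorem pw_rot (hs : IsStationary μ) (h2 : Integrable (fun f : MW => f 0 ^ 2) μ) (n : ℕ)
    (g : Lp ℝ 2 μ) (y : ℂ) (α : ℝ) : ⟪PW hs h2 n (Complex.exp (α * I) * y), g⟫_ℝ =
      Real.cos (n * α) * (∫ φ in (0:ℝ)..(2 * Real.pi),
        ⟪V hs h2 (Complex.exp (φ * I) * y), g⟫_ℝ * Real.cos (n * φ)) +
        Real.sin (n * α) * ∫ φ in (0:ℝ)..(2 * Real.pi),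
        ⟪V hs h2 (Complex.exp (φ * I) * y), g⟫_ℝ * Real.sin (n * φ) := by
  rw [pw_inner, ← coef_shift (Vrot_cont hs h2 g y) (Vrot_per hs h2 g y) n α]
  refine intervalIntegral.integral_congr fun φ _ => ?_
  show ⟪V hs h2 (Complex.exp (φ * I) * (Complex.exp (α * I) * y)), g⟫_ℝ * Real.cos (n * φ) =
    ⟪V hs h2 (Complex.exp (((φ + α : ℝ) : ℂ) * I) * y), g⟫_ℝ * Real.cos (n * φ)
  rw [← mul_assoc, ← Complex.exp_add]
  congr 4
  push_cast
  ring_nf

/-- W5 (sine coefficients: rotate `y`) -/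
theorem pw_sin (hs : IsStationary μ) (h2 : Integrable (fun f : MW => f 0 ^ 2) μ) (n : ℕ)
    (g : Lp ℝ 2 μ) (h : ∀ y, ⟪PW hs h2 n y, g⟫_ℝ = 0) (y : ℂ) :
      ∫ φ in (0:ℝ)..(2 * Real.pi), ⟪V hs h2 (Complex.exp (φ * I) * y), g⟫_ℝ *
        Real.sin (n * φ) = 0 := by
  rcases Nat.eq_zero_or_pos n with rfl | hn
  · simp
  have h1 := pw_rot hs h2 n g y (Real.pi / (2 * n))
  have hn' : (n : ℝ) ≠ 0 := by exact_mod_cast hn.ne'
  have h3 : (n : ℝ) * (Real.pi / (2 * n)) = Real.pi / 2 := by field_simp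
  rw [h, h3, Real.cos_pi_div_two, Real.sin_pi_div_two, zero_mul, zero_add, one_mul] at h1
  exact h1.symm

/-- W6 (Fourier uniqueness) -/
theorem pw_total (hs : IsStationary μ) (h2 : Integrable (fun f : MW => f 0 ^ 2) μ)
    {g : Lp ℝ 2 μ} (hg : g ∈ values μ) (h : ∀ n y, ⟪PW hs h2 n y, g⟫_ℝ = 0) : g = 0 := by
  refine eq_zero_of_inner hs h2 hg fun y => ?_
  have h1 := fourier_unique (Vrot_cont hs h2 g y) (Vrot_per hs h2 g y)
    (fun n => by rw [← pw_inner, h]) (fun n => pw_sin hs h2 n g (h n) y) 0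
  rw [Complex.ofReal_zero, zero_mul, Complex.exp_zero, one_mul] at h1
  rw [real_inner_comm]
  exact h1

/-- W7 -/
theorem pw_orth (hs : IsStationary μ) (h2 : Integrable (fun f : MW => f 0 ^ 2) μ)
    (hcov : ∀ w w' : ℂ, ∫ f : MW, f w * f w' ∂μ = J0 ‖w - w'‖) {n m : ℕ} (hnm : n ≠ m) (y z : ℂ) :
    ⟪PW hs h2 n y, PW hs h2 m z⟫_ℝ = 0 := by
  rw [pw_inner]
  obtain ⟨u, hu⟩ : ∃ u : ℝ → ℝ, ∀ t, u t = J0 ‖Complex.exp (t * I) * z - y‖ := ⟨_, fun _ => rfl⟩
  have huc : Continuous u := by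
    have h1 : u = fun t : ℝ => J0 ‖Complex.exp (t * I) * z - y‖ := funext hu
    rw [h1]
    exact J0_cont.comp (continuous_norm.comp (by fun_prop))
  have hup : Function.Periodic u (2 * Real.pi) := by
    intro t
    have h1 := rot_per z t
    simp only at h1
    rw [hu, hu, h1]
  have h1 : ∀ φ : ℝ, ⟪V hs h2 (Complex.exp (φ * I) * y), PW hs h2 m z⟫_ℝ =
      Real.cos (m * φ) * (∫ ψ in (0:ℝ)..(2 * Real.pi), u ψ * Real.cos (m * ψ)) -
        Real.sin (m * φ) * ∫ ψ in (0:ℝ)..(2 * Real.pi), u ψ * Real.sin (m * ψ) := by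
    intro φ
    rw [real_inner_comm, pw_inner]
    have h3 := coef_shift huc hup m (-φ)
    rw [mul_neg, Real.cos_neg, Real.sin_neg, neg_mul, ← sub_eq_add_neg] at h3
    rw [← h3]
    refine intervalIntegral.integral_congr fun ψ _ => ?_
    show ⟪V hs h2 (Complex.exp (ψ * I) * z), V hs h2 (Complex.exp (φ * I) * y)⟫_ℝ *
      Real.cos (m * ψ) = u (ψ + -φ) * Real.cos (m * ψ)
    rw [inner_V, hcov, hu]
    congr 2
    have h4 : Complex.exp (ψ * I) * z - Complex.exp (φ * I) * y =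
        Complex.exp (φ * I) * (Complex.exp (((ψ + -φ : ℝ) : ℂ) * I) * z - y) := by
      rw [mul_sub, ← mul_assoc, ← Complex.exp_add]
      congr 3
      push_cast
      ring
    rw [h4, norm_rot]
  simp_rw [h1]
  obtain ⟨A, hA⟩ : ∃ A, A = ∫ ψ in (0:ℝ)..(2 * Real.pi), u ψ * Real.cos (m * ψ) := ⟨_, rfl⟩
  obtain ⟨B, hB⟩ : ∃ B, B = ∫ ψ in (0:ℝ)..(2 * Real.pi), u ψ * Real.sin (m * ψ) := ⟨_, rfl⟩
  rw [← hA, ← hB]
  have h3 : ∀ φ : ℝ, (Real.cos (m * φ) * A - Real.sin (m * φ) * B) * Real.cos (n * φ) =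
      A * (Real.cos (m * φ) * Real.cos (n * φ)) - B * (Real.sin (m * φ) * Real.cos (n * φ)) := by
    intro φ
    ring
  simp_rw [h3]
  rw [intervalIntegral.integral_sub ((by fun_prop : Continuous fun φ : ℝ =>
      A * (Real.cos (m * φ) * Real.cos (n * φ))).intervalIntegrable _ _)
    ((by fun_prop : Continuous fun φ : ℝ =>
      B * (Real.sin (m * φ) * Real.cos (n * φ))).intervalIntegrable _ _),
    intervalIntegral.integral_const_mul, intervalIntegral.integral_const_mul,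
    int_cos_cos hnm, int_sin_cos]
  ring

/-- the closed span of the partial waves of angular momenta in `N` -/
def PWS (hs : IsStationary μ) (h2 : Integrable (fun f : MW => f 0 ^ 2) μ) (N : Set ℕ) :
    Submodule ℝ (Lp ℝ 2 μ) :=
  (Submodule.span ℝ (Set.range fun p : N × ℂ => PW hs h2 p.1 p.2)).topologicalClosure

theorem PWS_mem (hs : IsStationary μ) (h2 : Integrable (fun f : MW => f 0 ^ 2) μ) {N : Set ℕ}
    {n : ℕ} (hn : n ∈ N) (y : ℂ) : PW hs h2 n y ∈ PWS hs h2 N :=
  Submodule.le_topologicalClosure _ (Submodule.subset_span ⟨(⟨n, hn⟩, y), rfl⟩)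

theorem PWS_le (hs : IsStationary μ) (h2 : Integrable (fun f : MW => f 0 ^ 2) μ) {N : Set ℕ}
    {A : Submodule ℝ (Lp ℝ 2 μ)} (hA : IsClosed (A : Set (Lp ℝ 2 μ)))
    (h : ∀ n ∈ N, ∀ y, PW hs h2 n y ∈ A) : PWS hs h2 N ≤ A := by
  refine Submodule.topologicalClosure_minimal _ ?_ hA
  rw [Submodule.span_le]
  rintro _ ⟨p, rfl⟩
  exact h p.1 p.1.2 p.2

/-- W8 -/
theorem pws_le (hs : IsStationary μ) (h2 : Integrable (fun f : MW => f 0 ^ 2) μ) (N : Set ℕ) :
    PWS hs h2 N ≤ values μ := PWS_le hs h2 values_closed fun n _ y => pw_mem hs h2 n y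

theorem pws_orth (hs : IsStationary μ) (h2 : Integrable (fun f : MW => f 0 ^ 2) μ)
    (hcov : ∀ w w' : ℂ, ∫ f : MW, f w * f w' ∂μ = J0 ‖w - w'‖) {N : Set ℕ} {m : ℕ} (hm : m ∉ N)
    (y : ℂ) : ∀ g ∈ PWS hs h2 N, ⟪PW hs h2 m y, g⟫_ℝ = 0 := by
  have h1 : PWS hs h2 N ≤ (ℝ ∙ PW hs h2 m y)ᗮ := by
    refine PWS_le hs h2 (Submodule.isClosed_orthogonal _) fun n hn z => ?_
    rw [Submodule.mem_orthogonal_singleton_iff_inner_right]
    exact pw_orth hs h2 hcov (fun h => hm (by rw [h]; exact hn)) y z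
  intro g hg
  exact Submodule.mem_orthogonal_singleton_iff_inner_right.1 (h1 hg)

/-- W9 -/
theorem pws_perp (hs : IsStationary μ) (h2 : Integrable (fun f : MW => f 0 ^ 2) μ)
    (hcov : ∀ w w' : ℂ, ∫ f : MW, f w * f w' ∂μ = J0 ‖w - w'‖) (N : Set ℕ) :
    (PWS hs h2 N)ᗮ ⊓ values μ = PWS hs h2 Nᶜ := by
  have hge : PWS hs h2 Nᶜ ≤ (PWS hs h2 N)ᗮ := by
    refine PWS_le hs h2 (Submodule.isClosed_orthogonal _) fun n hn y => ?_
    rw [Submodule.mem_orthogonal']
    exact pws_orth hs h2 hcov hn y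
  refine le_antisymm ?_ (le_inf hge (pws_le hs h2 _))
  rintro x ⟨hx1, hx2⟩
  have hcl : IsClosed (PWS hs h2 Nᶜ : Set (Lp ℝ 2 μ)) := Submodule.isClosed_topologicalClosure _
  have : CompleteSpace (PWS hs h2 Nᶜ) := hcl.completeSpace_coe
  obtain ⟨p, hp, q, hq, hpq⟩ := (PWS hs h2 Nᶜ).exists_add_mem_mem_orthogonal x
  have hqv : q ∈ values μ := by
    have h1 : q = x - p := by rw [hpq]; abel
    rw [h1]
    exact Submodule.sub_mem _ hx2 (pws_le hs h2 _ hp)
  have hq0 : q = 0 := by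
    refine pw_total hs h2 hqv fun n y => ?_
    by_cases hn : n ∈ N
    · have h1 : ⟪PW hs h2 n y, x⟫_ℝ = 0 := (Submodule.mem_orthogonal _ _).1 hx1 _ (PWS_mem hs h2 hn y)
      have h3 : ⟪PW hs h2 n y, p⟫_ℝ = 0 := pws_orth hs h2 hcov (not_not.2 hn) y p hp
      rw [hpq, inner_add_right, h3, zero_add] at h1
      exact h1
    · exact (Submodule.mem_orthogonal _ _).1 hq _ (PWS_mem hs h2 hn y)
  rw [hpq, hq0, add_zero]
  exact hp

end

end Pool.Agent.Helper72.Ip
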